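import Pool.Agent.Helper9.UNI.Sheet
import Pool.Agent.Helper54.LM3.CONC3

/-!
# UNI row CPTMu (MP_9a3c31_nt): `ST_CPTM` with a constant depending on the degree only
-/

set_option autoImplicit false

open Filter Topology NumberField

namespace Pool.Agent.Helper53.UNI

open Pool.Agent.Helper42.LS Pool.Agent.Helper42.LK Pool.Agent.Helper54.LM Pool.Agent.Helper9.LS5
  Pool.Agent.Helper66.LS5 Pool.Agent.Helper54.LM3 Pool.Agent.Helper9.UNI

/-- (CONCMu) `ST_CONCM` uniform -/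
def ST_CONCMu : Prop := ∀ D m : ℕ, 1 ≤ m → ∃ c : ℝ, 0 < c ∧
  ∀ (K : Type) [Field K] [NumberField K], Module.finrank ℚ K ≤ D →
  ∀ A B : K, dsc A B ≠ 0 → ∀ (X Y : (Fin m → ℤ) → K) (G : Matrix (Fin m) (Fin m) ℝ),
  GLat (0 : K) A B X Y → G.IsSymm → (∀ k, k ≠ 0 → IsCanK (fun n : ℕ => X (n • k)) (qf G k)) →
  ∀ T : Finset (FinitePlace K), c * (1 + HK A B) ^ m *
    rho A B (fun i => X (Pi.single i 1)) T ^ (min ((2 * (m : ℝ) + 6) / 3) (((m : ℝ) + 6) / 2)) ≤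
      G.det

theorem CONCMu (h1 : ST_CONCu) (h3 : ST_CONC3u) : ST_CONCMu := by
  intro D m hm
  rcases min_choice ((2 * (m : ℝ) + 6) / 3) (((m : ℝ) + 6) / 2) with h | h
  · rw [h]; exact h1 D m hm
  · rw [h]; exact h3 D m hm

/-- **CPTMu** -/
theorem CPTMu (hGL : ST_LGL) (hCH : ST_LCH) (hC : ST_CONCu) (hC3 : ST_CONC3u) (hK : ST_CMKu)
    (hDF : ST_KDF) : ST_CPTMu := by
  intro D m hm
  obtain ⟨c₁, hc₁, h1⟩ := CONCMu hC hC3 D m hm
  obtain ⟨C, hC0, h2⟩ := hK D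
  have hm0 : (0 : ℝ) < m := by exact_mod_cast hm
  obtain ⟨E, hE⟩ : ∃ E : ℝ, E = min ((2 * (m : ℝ) + 6) / 3) (((m : ℝ) + 6) / 2) := ⟨_, rfl⟩
  have hE0 : 0 < E := by rw [hE]; exact lt_min (by positivity) (by positivity)
  obtain ⟨c₂, hc₂d⟩ : ∃ c₂ : ℝ, c₂ = c₁ * C ^ (-E) := ⟨_, rfl⟩
  have hc₂ : 0 < c₂ := by rw [hc₂d]; positivity
  refine ⟨min (min c₁ c₂) (min (m * c₁ ^ (1 / (m : ℝ))) (m * c₂ ^ (1 / (m : ℝ)))), by positivity,
    ?_⟩
  obtain ⟨c, hcd⟩ : ∃ c : ℝ, c = min (min c₁ c₂)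
    (min (m * c₁ ^ (1 / (m : ℝ))) (m * c₂ ^ (1 / (m : ℝ)))) := ⟨_, rfl⟩
  rw [← hcd]
  have hcc₁ : c ≤ c₁ := by rw [hcd]; exact (min_le_left _ _).trans (min_le_left _ _)
  have hcc₂ : c ≤ c₂ := by rw [hcd]; exact (min_le_left _ _).trans (min_le_right _ _)
  have hcc₃ : c ≤ m * c₁ ^ (1 / (m : ℝ)) := by
    rw [hcd]; exact (min_le_right _ _).trans (min_le_left _ _)
  have hcc₄ : c ≤ m * c₂ ^ (1 / (m : ℝ)) := by
    rw [hcd]; exact (min_le_right _ _).trans (min_le_right _ _)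
  intro K _ _ _ hKD A B hD P hP
  obtain ⟨X, Y, hL, hX, R, hR, hcan⟩ := Pool.Agent.Helper47.LS5.REGS_gram hGL hCH hD P hP
  have hd : ∀ v : FinitePlace K, 0 ≤ dl (fun z : K => v z) A B :=
    fun v => ((hDF K A B hD).2.1 v).1
  have hH : 0 ≤ HK A B := by
    unfold HK LD
    exact add_nonneg (finsum_nonneg fun v => hd v) (Height.zero_le_logHeight₁ _)
  have hH1 : 0 < 1 + HK A B := by linarith
  have hpsd : R.PosSemidef := by
    refine LREG_psd hR.1 fun k => ?_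
    refine ge_of_tendsto' (hR.2 k) fun n => div_nonneg ?_ (by positivity)
    rcases (2 ^ n • ∑ i, k i • P i : (ECK A B).toAffine.Point) with _ | ⟨x, y, h⟩
    · exact le_rfl
    · exact Height.zero_le_logHeight₁ _
  have hx : (fun i => X (Pi.single i 1)) = fun i => xco (P i) := funext hX
  rw [← hE]
  have hdet : ∀ T : Finset (FinitePlace K), c₁ * (1 + HK A B) ^ m *
      rho A B (fun i => xco (P i)) T ^ E ≤ R.det := by
    intro T
    have h3 := h1 K hKD A B hD X Y R hL hR.1 hcan T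
    rw [hx, ← hE] at h3
    exact h3
  have hmK : (0 : ℝ) < 1 + (mK A B : ℝ) := by positivity
  have hdet2 : c₂ * (1 + HK A B) ^ m * ((1 + (mK A B : ℝ))⁻¹) ^ E ≤ R.det := by
    obtain ⟨T, hT⟩ := h2 K hKD A B hD m (fun i => xco (P i))
    refine le_trans ?_ (hdet T)
    have h3 : (C * (1 + (mK A B : ℝ)))⁻¹ ≤ rho A B (fun i => xco (P i)) T := by
      rw [inv_le_iff_one_le_mul₀ (by positivity)]
      linarith
    have h4 : ((C * (1 + (mK A B : ℝ)))⁻¹) ^ E ≤ rho A B (fun i => xco (P i)) T ^ E :=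
      Real.rpow_le_rpow (by positivity) h3 hE0.le
    have h5 : ((C * (1 + (mK A B : ℝ)))⁻¹) ^ E = C ^ (-E) * ((1 + (mK A B : ℝ))⁻¹) ^ E := by
      rw [mul_inv, Real.mul_rpow (by positivity) (by positivity), Real.inv_rpow hC0.le,
        ← Real.rpow_neg hC0.le]
    calc c₂ * (1 + HK A B) ^ m * ((1 + (mK A B : ℝ))⁻¹) ^ E
        = c₁ * (1 + HK A B) ^ m * ((C * (1 + (mK A B : ℝ)))⁻¹) ^ E := by rw [h5, hc₂d]; ring
      _ ≤ _ := mul_le_mul_of_nonneg_left h4 (by positivity)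
  have hinv : ∀ s : ℝ, (1 + (mK A B : ℝ)) ^ (-s) = ((1 + (mK A B : ℝ))⁻¹) ^ s := by
    intro s
    rw [Real.rpow_neg hmK.le, Real.inv_rpow hmK.le]
  refine ⟨R, hR, fun T => ?_, ?_, ?_⟩
  · have hr := Pool.Agent.Helper27.LS5.rho_nonneg A B (fun i => xco (P i)) T hd
    refine ⟨?_, fun S hS => ?_⟩
    · refine le_trans ?_ (hdet T)
      refine mul_le_mul_of_nonneg_right ?_ (Real.rpow_nonneg hr _)
      exact mul_le_mul_of_nonneg_right hcc₁ (by positivity)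
    · refine le_trans ?_ (Pool.Agent.Helper27.LS5.CPTS_trace hm hR.1 hpsd hS hc₁.le hH1.le hr (hdet T))
      refine mul_le_mul_of_nonneg_right ?_ (Real.rpow_nonneg hr _)
      exact mul_le_mul_of_nonneg_right hcc₃ hH1.le
  · rw [hinv]
    refine le_trans ?_ hdet2
    refine mul_le_mul_of_nonneg_right ?_ (by positivity)
    exact mul_le_mul_of_nonneg_right hcc₂ (by positivity)
  · intro S hS
    rw [hinv]
    refine le_trans ?_ (Pool.Agent.Helper27.LS5.CPTS_trace hm hR.1 hpsd hS hc₂.le hH1.le (by positivity) hdet2)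
    refine mul_le_mul_of_nonneg_right ?_ (by positivity)
    exact mul_le_mul_of_nonneg_right hcc₄ hH1.le

end Pool.Agent.Helper53.UNI
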