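import Pool.Agent.Helper9.UNI.Sheet
import Pool.Agent.Helper94.LM.LLS

/-!
# UNI row LLSu (MP_9a3c31_nt): the local package of LLS with an explicit constant
-/

set_option autoImplicit false

open Filter Topology NumberField

namespace Pool.Agent.Helper53.UNI

open Pool.Agent.Helper42.LS Pool.Agent.Helper42.LK Pool.Agent.Helper54.LM Pool.Agent.Helper9.UNI

theorem LLSu (hPM : ST_LPM) (hPS : ST_KPSu) (hMN : ST_KMN) (hSC : ST_LSC) (hSQ : ST_LSQ) :
    ST_LLSu := by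
  intro F _ _ v hv6
  have hPS := hPS F v
  have hlq := v.log_q_pos
  have h30 : 0 ≤ v.ord 3 := v.ord_ofNat 3
  have h6912 : 0 ≤ v.ord 6912 := v.ord_ofNat 6912
  have h160 : 0 ≤ v.ord 16 := v.ord_ofNat 16
  set C₂ : ℝ := ((v.ord 6912 + 3 * v.ord 3 + 12 + v.ord 16 : ℤ) : ℝ) * Real.log v.q with hC₂
  have hC₂0 : 0 ≤ C₂ := by
    apply mul_nonneg _ hlq.le
    have : (0 : ℤ) ≤ v.ord 6912 + 3 * v.ord 3 + 12 + v.ord 16 := by omega
    exact_mod_cast this
  have hord6 : v.ord 6 = v.ord 2 + v.ord 3 := by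
    have h := v.ord_mul 2 3 two_ne_zero three_ne_zero
    rw [← h]; norm_num
  have hlog6 : -Real.log (v.nr 6) = ((v.ord 2 + v.ord 3 : ℤ) : ℝ) * Real.log v.q := by
    rw [v.log_nr (by norm_num : (6 : F) ≠ 0), hord6]; ring
  have h20 : 0 ≤ v.ord 2 := v.ord_ofNat 2
  obtain ⟨C₁, hC₁⟩ : ∃ C₁ : ℝ, C₁ = 100 * -Real.log (v.nr 6) := ⟨_, rfl⟩
  have hC₁0 : 0 ≤ C₁ := by
    rw [hC₁, hlog6]
    have : (0 : ℤ) ≤ v.ord 2 + v.ord 3 := by omega
    have h' : (0 : ℝ) ≤ ((v.ord 2 + v.ord 3 : ℤ) : ℝ) := by exact_mod_cast this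
    positivity
  have hord6912 : v.ord 6912 = 8 * v.ord 2 + 3 * v.ord 3 := by
    have h := v.ord_mul (2 ^ 8) (3 ^ 3) (by norm_num) (by norm_num)
    rw [v.ord_pow, v.ord_pow] at h
    have e : (2 : F) ^ 8 * 3 ^ 3 = 6912 := by norm_num
    rw [e] at h
    rw [h]; push_cast; ring
  have hord16 : v.ord 16 = 4 * v.ord 2 := by
    have h := v.ord_pow 2 4
    have e : (2 : F) ^ 4 = 16 := by norm_num
    rw [e] at h
    rw [h]; push_cast; ring
  have hCC : C₁ + C₂ ≤ 200 * -Real.log (v.nr 6) := by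
    have h1 : C₂ ≤ 100 * -Real.log (v.nr 6) := by
      rw [hC₂, hlog6, ← mul_assoc]
      apply mul_le_mul_of_nonneg_right _ hlq.le
      exact_mod_cast (by omega : v.ord 6912 + 3 * v.ord 3 + 12 + v.ord 16 ≤
        100 * (v.ord 2 + v.ord 3))
    rw [hC₁]; linarith
  intro A₀ B₀ hD₀ m X₀ Y₀ hg₀
  obtain ⟨u, hu0, huA, huB, hmin, hdl, -⟩ := hMN F v A₀ B₀ hD₀
  have hg := hSC F m A₀ B₀ u X₀ Y₀ hu0 hg₀
  have hlogD := klb_log_dsc v hu0 hD₀
  have hD : dsc (u ^ 4 * A₀) (u ^ 6 * B₀) ≠ 0 := by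
    rw [klb_dsc]; exact mul_ne_zero (pow_ne_zero _ hu0) hD₀
  -- a potential for the minimal equation suffices
  suffices hkey : ∃ (w : ℝ) (t : Fin m → ℝ) (N : ℕ), 0 ≤ w ∧ |w - dl v.nr A₀ B₀| ≤ C₁ + C₂ ∧
      1 ≤ N ∧ (∀ i, ∃ a : ℤ, (N : ℝ) * t i = a) ∧ (w ≠ 0 → N * Real.log v.q ≤ w) ∧
      ∀ k : Fin m → ℤ, k ≠ 0 → ∃ U : ℕ → ℝ,
      (∀ n : ℕ, 1 ≤ n → 4 * U n - (C₁ + C₂) ≤ U (2 * n) +
        Real.log (v.nr (4 * cu (u ^ 4 * A₀) (u ^ 6 * B₀) (u ^ 2 * X₀ (n • k))))) ∧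
      (∃ C : ℝ, ∀ n : ℕ, 1 ≤ n → U n ≤ Real.log (max (v.nr (u ^ 2 * X₀ (n • k))) 1) + C) ∧
      (∀ n : ℕ, 1 ≤ n → w * B2 (n * pr k t) +
        1 / 6 * Real.log (v.nr (dsc (u ^ 4 * A₀) (u ^ 6 * B₀))) - (C₁ + C₂) ≤ U (12 * n)) by
    obtain ⟨w, t, N, h5, h6, h7, h8, h9, h10⟩ := hkey
    refine ⟨w, t, N, h5, h6.trans hCC, h7, h8, h9, ?_⟩
    intro k hk0
    obtain ⟨U, h10, h11, h12⟩ := h10 k hk0
    have hgk := hSQ F m 0 A₀ B₀ X₀ Y₀ hg₀ k hk0
    obtain ⟨h13, h14⟩ := klb_scale v hu0 hgk h10 h11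
    refine ⟨fun n => U n - 2 * Real.log (v.nr u), ?_, h14, ?_⟩
    · intro n hn
      have := h13 n hn
      linarith
    intro n hn
    have := h12 n hn
    rw [hlogD] at this
    simp only
    linarith
  set A := u ^ 4 * A₀ with hA
  set B := u ^ 6 * B₀ with hB
  have hAint : v.nr A ≤ 1 := huA
  have hBint : v.nr B ≤ 1 := huB
  have hDint : v.nr (dsc A B) ≤ 1 := by
    unfold dsc
    refine (v.nr_add_le _ _).trans (max_le ?_ ?_)
    · rw [v.nr_mul, v.nr_pow]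
      exact mul_le_one₀ (v.nr_ofNat 4) (pow_nonneg (v.nr_nonneg _) _)
        (pow_le_one₀ (v.nr_nonneg _) hAint)
    · rw [v.nr_mul, v.nr_pow]
      exact mul_le_one₀ (v.nr_ofNat 27) (pow_nonneg (v.nr_nonneg _) _)
        (pow_le_one₀ (v.nr_nonneg _) hBint)
  have hordD : 0 ≤ v.ord (dsc A B) := (v.nr_le_one_iff hD).1 hDint
  have hdlD : dl v.nr A₀ B₀ = (v.ord (dsc A B) : ℝ) * Real.log v.q := by
    rw [hdl, v.log_nr hD]; ring
  by_cases hj : v.nr (6912 * A ^ 3) ≤ v.nr (dsc A B)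
  · -- potentially good reduction
    have hsmall : v.ord (dsc A B) ≤ v.ord 6912 + 3 * v.ord 3 + 12 := by
      by_contra hcon
      push Not at hcon
      apply kls_min v hmin
      · by_cases hA0 : A = 0
        · exact Or.inl hA0
        · right
          have hne : 6912 * A ^ 3 ≠ 0 := mul_ne_zero (by norm_num) (pow_ne_zero _ hA0)
          rw [v.nr_of_ne hne, v.nr_of_ne hD, zpow_le_zpow_iff_right₀ v.one_lt_q,
            v.ord_mul _ _ (by norm_num) (pow_ne_zero _ hA0), v.ord_pow] at hj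
          push_cast at hj
          omega
      · right; omega
    refine ⟨0, fun _ => 0, 1, le_rfl, ?_, le_rfl, fun i => ⟨0, by simp⟩,
      fun h => absurd rfl h, ?_⟩
    · rw [zero_sub, abs_neg, hdlD, abs_of_nonneg (mul_nonneg (by exact_mod_cast hordD) hlq.le)]
      have : (v.ord (dsc A B) : ℝ) * Real.log v.q ≤ C₂ := by
        apply mul_le_mul_of_nonneg_right _ hlq.le
        exact_mod_cast (by omega : v.ord (dsc A B) ≤ v.ord 6912 + 3 * v.ord 3 + 12 + v.ord 16)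
      linarith
    · intro k hk0
      obtain ⟨U, hU1, hU2, hU3⟩ := hPS A B hD hj _ _ (hSQ F m 0 A B _ _ hg k hk0)
      refine ⟨U, ?_, hU2, ?_⟩
      · intro n hn; have := hU1 n hn; rw [← hC₁] at this; linarith
      · intro n hn
        have := hU3 (12 * n) (by omega)
        rw [zero_mul, zero_add]
        linarith
  · push Not at hj
    have hA0 : A ≠ 0 := by
      intro h
      rw [h] at hj
      simp only [ne_eq, OfNat.ofNat_ne_zero, not_false_eq_true, zero_pow, mul_zero,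
        v.nr_zero] at hj
      exact absurd (v.nr_nonneg _) (not_le.2 hj)
    have hne : 6912 * A ^ 3 ≠ 0 := mul_ne_zero (by norm_num) (pow_ne_zero _ hA0)
    have hord : v.ord (6912 * A ^ 3) < v.ord (dsc A B) := by
      rw [v.nr_of_ne hne, v.nr_of_ne hD, zpow_lt_zpow_iff_right₀ v.one_lt_q] at hj
      omega
    have hord2 : v.ord (6912 * A ^ 3) = v.ord 6912 + 3 * v.ord A := by
      rw [v.ord_mul _ _ (by norm_num) (pow_ne_zero _ hA0), v.ord_pow]; rfl
    have hordA : 0 ≤ v.ord A := (v.nr_le_one_iff hA0).1 hAint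
    obtain ⟨N, hN⟩ : ∃ N : ℕ, v.ord (6912 * A ^ 3 / dsc A B) = -(N : ℤ) :=
      ⟨(-(v.ord (6912 * A ^ 3 / dsc A B))).toNat, by
        rw [v.ord_div hne hD, Int.toNat_of_nonneg (by omega)]; ring⟩
    have hN' : (N : ℤ) = v.ord (dsc A B) - v.ord 6912 - 3 * v.ord A := by
      rw [v.ord_div hne hD] at hN; omega
    have hN1 : 1 ≤ N := by omega
    have hAlt : v.ord A < 4 + v.ord 3 := by
      by_contra hcon
      push Not at hcon
      exact kls_min v hmin (Or.inr hcon) (Or.inr (by omega))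
    obtain ⟨r, a, hr, hPMk⟩ := hPM F v N hN1 A B hD hN m _ _ hg
    have hNR : (0 : ℝ) < N := by exact_mod_cast hN1
    refine ⟨N * Real.log v.q, fun i => 6 * a i / N, N, by positivity, ?_, hN1,
      fun i => ⟨6 * a i, by push_cast; field_simp⟩, fun _ => le_rfl, ?_⟩
    · rw [hdlD, ← sub_mul, abs_mul, abs_of_pos hlq]
      have h1 : |((N : ℝ) - (v.ord (dsc A B) : ℝ))| ≤
          ((v.ord 6912 + 3 * v.ord 3 + 12 + v.ord 16 : ℤ) : ℝ) := by
        have h2 : |((N : ℤ) - v.ord (dsc A B))| ≤ v.ord 6912 + 3 * v.ord 3 + 12 + v.ord 16 := by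
          rw [abs_le]; omega
        exact_mod_cast h2
      have h3 := mul_le_mul_of_nonneg_right h1 hlq.le
      linarith
    · intro k hk0
      obtain ⟨U, hU1, hU2, hU3, -⟩ := hPMk k hk0
      refine ⟨U, ?_, hU2, ?_⟩
      · intro n hn; have := hU1 n hn; linarith
      · intro n hn
        have h1 := hU3 (12 * n) (by omega)
        have e1 : (((12 * n : ℕ) : ℝ) * pr k (fun i => (a i : ℝ) / (2 * N))) =
            n * pr k (fun i => 6 * (a i : ℝ) / N) := by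
          rw [← LLS_pr k a N hNR]
          push_cast; ring
        rw [e1] at h1
        have h2 : Real.log (v.nr (dsc A B)) = -(v.ord (dsc A B) : ℝ) * Real.log v.q :=
          v.log_nr hD
        rw [v.ord_mul _ _ (by norm_num) hD] at hr
        have hrR : (v.ord 16 : ℝ) + (v.ord (dsc A B) : ℝ) = N + 6 * r := by exact_mod_cast hr
        have h3 : (v.ord (dsc A B) : ℝ) = N + 6 * r - v.ord 16 := by linarith
        rw [h2, h3]
        have h4 : (0 : ℝ) ≤ (v.ord 16 : ℝ) * Real.log v.q :=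
          mul_nonneg (by exact_mod_cast h160) hlq.le
        have h5 : (v.ord 16 : ℝ) * Real.log v.q ≤ C₂ := by
          apply mul_le_mul_of_nonneg_right _ hlq.le
          exact_mod_cast (by omega : v.ord 16 ≤ v.ord 6912 + 3 * v.ord 3 + 12 + v.ord 16)
        have h6 : (N : ℝ) * Real.log v.q * (B2 (n * pr k (fun i => 6 * (a i : ℝ) / N)) - 1 / 6) =
          N * Real.log v.q * B2 (n * pr k (fun i => 6 * (a i : ℝ) / N)) -
            1 / 6 * (N * Real.log v.q) := by ring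
        rw [h6] at h1
        linarith

end Pool.Agent.Helper53.UNI
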